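import Mathlib

namespace Pool.Agent.Helper22.VT

open Polynomial

/-- Hajos: a polynomial with at most `n` monomials divisible by `(X - 1)^n` is zero. -/
lemma hajos (n : ℕ) : ∀ g : ℂ[X], g.support.card ≤ n → (X - C (1 : ℂ)) ^ n ∣ g → g = 0 := by
  induction n with
  | zero =>
    intro g hg _
    have : g.support = ∅ := Finset.card_eq_zero.mp (Nat.le_zero.mp hg)
    exact Polynomial.support_eq_empty.mp this
  | succ n ih =>
    intro g hg hdvd
    by_contra hne
    obtain ⟨g1, hg1, hnd⟩ : ∃ g1 : ℂ[X], g = X ^ (rootMultiplicity 0 g) * g1 ∧ ¬ X ∣ g1 := by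
      obtain ⟨q, hq, hq'⟩ := Polynomial.exists_eq_pow_rootMultiplicity_mul_and_not_dvd g hne 0
      refine ⟨q, ?_, ?_⟩
      · simpa using hq
      · simpa using hq'
    set m := rootMultiplicity 0 g
    have hc0 : g1.coeff 0 ≠ 0 := by
      intro h
      exact hnd (Polynomial.X_dvd_iff.mpr h)
    have hcop : IsCoprime ((X - C (1 : ℂ)) ^ (n + 1)) ((X : ℂ[X]) ^ m) := by
      apply IsCoprime.pow
      refine ⟨-1, 1, ?_⟩
      simp
    have hd1 : (X - C (1 : ℂ)) ^ (n + 1) ∣ g1 := by
      rw [hg1] at hdvd
      exact hcop.dvd_of_dvd_mul_left hdvd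
    -- support of g1
    have hs1 : g1.support.card ≤ n + 1 := by
      have : g.support.card = g1.support.card := by
        rw [hg1]
        have h2 : (X ^ m * g1).support = g1.support.map (addRightEmbedding m) := by
          ext k
          simp only [Polynomial.mem_support_iff, Finset.mem_map, addRightEmbedding_apply]
          rw [Polynomial.coeff_X_pow_mul']
          constructor
          · intro h
            by_cases hk : m ≤ k
            · rw [if_pos hk] at h
              exact ⟨k - m, h, Nat.sub_add_cancel hk⟩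
            · rw [if_neg hk] at h
              exact absurd rfl h
          · rintro ⟨j, hj, rfl⟩
            rw [if_pos (Nat.le_add_left _ _)]
            simpa using hj
        rw [h2, Finset.card_map]
      omega
    -- derivative
    have hder : (derivative g1).support.card ≤ n := by
      have hsub : (derivative g1).support.map (addRightEmbedding 1) ⊆ g1.support.erase 0 := by
        intro k hk
        simp only [Finset.mem_map, Polynomial.mem_support_iff, addRightEmbedding_apply] at hk
        obtain ⟨j, hj, rfl⟩ := hk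
        rw [Polynomial.coeff_derivative] at hj
        simp only [Finset.mem_erase, Polynomial.mem_support_iff]
        refine ⟨by omega, ?_⟩
        intro h
        rw [h] at hj
        simp at hj
      have h1 := Finset.card_le_card hsub
      rw [Finset.card_map, Finset.card_erase_of_mem (Polynomial.mem_support_iff.mpr hc0)] at h1
      omega
    have hdd : (X - C (1 : ℂ)) ^ n ∣ derivative g1 := by
      have := Polynomial.pow_sub_one_dvd_derivative_of_pow_dvd hd1
      simpa using this
    have hz := ih _ hder hdd
    have hconst : g1 = C (g1.coeff 0) := by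
      have := Polynomial.derivative_eq_zero.mp hz
      exact Polynomial.eq_C_of_natDegree_eq_zero this
    have hdvd1 : (X - C (1 : ℂ)) ∣ g1 := dvd_trans (dvd_pow_self _ (Nat.succ_ne_zero n)) hd1
    have := (Polynomial.dvd_iff_isRoot).mp hdvd1
    rw [hconst] at this
    simp [IsRoot] at this
    exact hc0 this

/-- Coefficient of `X^(W j) (X^W + X^(W-1))^k`. -/
lemma coeff_term (W j k N : ℕ) (hW : 1 ≤ W) :
    ((X : ℂ[X]) ^ (W * j) * (X ^ W + X ^ (W - 1)) ^ k).coeff N =
      if W * j + (W - 1) * k ≤ N then ((k.choose (N - (W * j + (W - 1) * k)) : ℕ) : ℂ) else 0 := by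
  have h1 : (X : ℂ[X]) ^ (W * j) * (X ^ W + X ^ (W - 1)) ^ k =
      X ^ (W * j + (W - 1) * k) * (X + 1) ^ k := by
    have : (X : ℂ[X]) ^ W + X ^ (W - 1) = X ^ (W - 1) * (X + 1) := by
      obtain ⟨w, rfl⟩ : ∃ w, W = w + 1 := ⟨W - 1, by omega⟩
      simp [pow_succ]
      ring
    rw [this, mul_pow, ← pow_mul, pow_add]
    ring
  rw [h1, Polynomial.coeff_X_pow_mul']
  split_ifs with h
  · rw [Polynomial.coeff_X_add_one_pow]
  · rfl

/-- The top homogeneous part of a bivariate polynomial of rank at most `W` has at most `W`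
monomials. -/
lemma card_top (W D : ℕ) (p q : Fin W → ℂ[X])
    (hD : ∀ j k, D < j + k → ∑ i, (p i).coeff j * (q i).coeff k = 0) (J : Finset ℕ)
    (hJ : ∀ j ∈ J, j ≤ D ∧ ∑ i, (p i).coeff j * (q i).coeff (D - j) ≠ 0) : J.card ≤ W := by
  classical
  let P : Matrix J (Fin W) ℂ := fun j i => (p i).coeff (j : ℕ)
  let Q : Matrix (Fin W) J ℂ := fun i k => (q i).coeff (D - (k : ℕ))
  have hdet : (P * Q).det ≠ 0 := by
    have htri : (P * Q).BlockTriangular id := by
      intro a b hab
      simp only [Matrix.mul_apply, P, Q]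
      apply hD
      have h1 : (b : ℕ) < (a : ℕ) := hab
      have h2 := (hJ b b.2).1
      omega
    rw [Matrix.det_of_isUpperTriangular htri]
    rw [Finset.prod_ne_zero_iff]
    intro a _
    exact (hJ a a.2).2
  have h1 : (P * Q).rank = Fintype.card J := by
    apply Matrix.rank_of_isUnit
    rw [Matrix.isUnit_iff_isUnit_det]
    exact isUnit_iff_ne_zero.mpr hdet
  have h2 : (P * Q).rank ≤ W := by
    calc (P * Q).rank ≤ P.rank := Matrix.rank_mul_le_left P Q
      _ ≤ Fintype.card (Fin W) := Matrix.rank_le_card_width P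
      _ = W := Fintype.card_fin W
  have h3 : Fintype.card J = J.card := Fintype.card_coe J
  omega

theorem bivariate (W : ℕ) (hW : 1 ≤ W) (p q : Fin W → Polynomial ℂ) (a b : ℂ)
    (h : ∑ i, (p i).eval a * (q i).eval b ≠ 0) :
    ∃ τ : ℂ, ∑ i, (p i).eval (τ ^ W) * (q i).eval (τ ^ W + τ ^ (W - 1)) ≠ 0 := by
  classical
  -- a common bound for the degrees
  obtain ⟨N, hN⟩ : ∃ N, ∀ i, (p i).natDegree < N ∧ (q i).natDegree < N := by
    refine ⟨(∑ i, ((p i).natDegree + (q i).natDegree)) + 1, fun i => ?_⟩
    have := Finset.single_le_sum (f := fun i => (p i).natDegree + (q i).natDegree)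
      (fun _ _ => Nat.zero_le _) (Finset.mem_univ i)
    omega
  set c : ℕ → ℕ → ℂ := fun j k => ∑ i, (p i).coeff j * (q i).coeff k with hc
  have hcN : ∀ j k, N ≤ j ∨ N ≤ k → c j k = 0 := by
    intro j k hjk
    apply Finset.sum_eq_zero
    intro i _
    rcases hjk with h1 | h1
    · rw [Polynomial.coeff_eq_zero_of_natDegree_lt (lt_of_lt_of_le (hN i).1 h1), zero_mul]
    · rw [Polynomial.coeff_eq_zero_of_natDegree_lt (lt_of_lt_of_le (hN i).2 h1), mul_zero]
  -- some coefficient is nonzero
  have hex : ∃ j k, c j k ≠ 0 := by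
    by_contra hcon
    push Not at hcon
    apply h
    have : ∀ i, (p i).eval a * (q i).eval b =
        ∑ j ∈ Finset.range N, ∑ k ∈ Finset.range N, (p i).coeff j * (q i).coeff k * (a ^ j * b ^ k) := by
      intro i
      rw [Polynomial.eval_eq_sum_range' (hN i).1, Polynomial.eval_eq_sum_range' (hN i).2,
        Finset.sum_mul_sum]
      apply Finset.sum_congr rfl; intro j _
      apply Finset.sum_congr rfl; intro k _
      ring
    rw [Finset.sum_congr rfl (fun i _ => this i), Finset.sum_comm]
    apply Finset.sum_eq_zero; intro j _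
    rw [Finset.sum_comm]
    apply Finset.sum_eq_zero; intro k _
    rw [← Finset.sum_mul]
    have := hcon j k
    rw [hc] at this
    simp only at this
    rw [this, zero_mul]
  -- total degree
  obtain ⟨D, hDex, hDmax⟩ : ∃ D, (∃ j k, j + k = D ∧ c j k ≠ 0) ∧ ∀ j k, D < j + k → c j k = 0 := by
    obtain ⟨j0, k0, h0⟩ := hex
    let S : Finset ℕ := (Finset.range (2 * N + 1)).filter fun D => ∃ j k, j + k = D ∧ c j k ≠ 0
    have hmem : ∀ j k, c j k ≠ 0 → j + k ∈ S := by
      intro j k hjk
      have hj : j < N := by
        by_contra hh; exact hjk (hcN j k (Or.inl (not_lt.mp hh)))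
      have hk : k < N := by
        by_contra hh; exact hjk (hcN j k (Or.inr (not_lt.mp hh)))
      simp only [S, Finset.mem_filter, Finset.mem_range]
      exact ⟨by omega, j, k, rfl, hjk⟩
    have hne : S.Nonempty := ⟨_, hmem _ _ h0⟩
    refine ⟨S.max' hne, ?_, ?_⟩
    · have := S.max'_mem hne
      simp only [S, Finset.mem_filter] at this
      exact this.2
    · intro j k hjk
      by_contra hcon
      have := S.le_max' _ (hmem j k hcon)
      omega
  -- the top part
  let J : Finset ℕ := (Finset.range (D + 1)).filter fun j => c j (D - j) ≠ 0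
  have hJcard : J.card ≤ W := by
    apply card_top W D p q hDmax
    intro j hj
    simp only [J, Finset.mem_filter, Finset.mem_range] at hj
    exact ⟨by omega, hj.2⟩
  let g : ℂ[X] := ∑ j ∈ Finset.range (D + 1), C (c j (D - j)) * X ^ (D - j)
  have hgcoeff : ∀ k, k ≤ D → g.coeff k = c (D - k) k := by
    intro k hk
    simp only [g, Polynomial.finsetSum_coeff, Polynomial.coeff_C_mul, Polynomial.coeff_X_pow]
    rw [Finset.sum_eq_single (D - k)]
    · have : D - (D - k) = k := by omega
      rw [this]; simp
    · intro j hj hjk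
      rw [Finset.mem_range] at hj
      rw [if_neg (by omega)]; simp
    · intro hh
      exact absurd (Finset.mem_range.mpr (by omega)) hh
  have hgne : g ≠ 0 := by
    obtain ⟨j, k, hjk, hne⟩ := hDex
    intro h0
    have := hgcoeff k (by omega)
    rw [h0] at this
    have hj : D - k = j := by omega
    rw [hj] at this
    exact hne this.symm
  have hgsupp : g.support.card ≤ W := by
    refine le_trans ?_ hJcard
    have hsub : g.support ⊆ J.image fun j => D - j := by
      intro k hk
      rw [Polynomial.mem_support_iff] at hk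
      by_cases hkD : k ≤ D
      · rw [hgcoeff k hkD] at hk
        simp only [Finset.mem_image, J, Finset.mem_filter, Finset.mem_range]
        refine ⟨D - k, ⟨by omega, ?_⟩, by omega⟩
        have : D - (D - k) = k := by omega
        rw [this]; exact hk
      · exfalso
        apply hk
        simp only [g, Polynomial.finsetSum_coeff, Polynomial.coeff_C_mul, Polynomial.coeff_X_pow]
        apply Finset.sum_eq_zero
        intro j _
        rw [if_neg (by omega)]; simp
    exact le_trans (Finset.card_le_card hsub) Finset.card_image_le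
  -- the first nonzero Taylor coefficient
  obtain ⟨i0, hi0, hi0ne⟩ : ∃ i < W, (g.comp (X + C 1)).coeff i ≠ 0 := by
    by_contra hcon
    push Not at hcon
    have h1 : X ^ W ∣ g.comp (X + C (1 : ℂ)) := Polynomial.X_pow_dvd_iff.mpr hcon
    have h2 : (X - C (1 : ℂ)) ^ W ∣ g := Polynomial.X_sub_C_pow_dvd_iff.mpr h1
    exact hgne (hajos W g hgsupp h2)
  have htaylor : (g.comp (X + C 1)).coeff i0 =
      ∑ j ∈ Finset.range (D + 1), c j (D - j) * (((D - j).choose i0 : ℕ) : ℂ) := by
    simp only [g, Polynomial.sum_comp, Polynomial.mul_comp, Polynomial.C_comp,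
      Polynomial.pow_comp, Polynomial.X_comp, Polynomial.finsetSum_coeff, Polynomial.coeff_C_mul]
    apply Finset.sum_congr rfl; intro j _
    rw [Polynomial.C_1, Polynomial.coeff_X_add_one_pow]
  have hi0D : i0 ≤ D := by
    by_contra hlt
    apply hi0ne
    rw [htaylor]
    apply Finset.sum_eq_zero
    intro j hj
    rw [Nat.choose_eq_zero_of_lt (by omega : D - j < i0)]
    simp
  have hWD : D ≤ W * D := Nat.le_mul_of_pos_left D hW
  -- suppose everything vanishes
  by_contra hcon
  push Not at hcon
  let G : ℂ[X] := ∑ i, (p i).comp (X ^ W) * (q i).comp (X ^ W + X ^ (W - 1))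
  have hG0 : G = 0 := by
    apply Polynomial.funext
    intro τ
    simp only [G, Polynomial.eval_finsetSum, Polynomial.eval_mul, Polynomial.eval_comp,
      Polynomial.eval_add, Polynomial.eval_pow, Polynomial.eval_X, Polynomial.eval_zero]
    exact hcon τ
  have hGexp : G = ∑ j ∈ Finset.range N, ∑ k ∈ Finset.range N,
      C (c j k) * (X ^ (W * j) * (X ^ W + X ^ (W - 1)) ^ k) := by
    have : ∀ i, (p i).comp (X ^ W) * (q i).comp (X ^ W + X ^ (W - 1)) =
        ∑ j ∈ Finset.range N, ∑ k ∈ Finset.range N,
          C ((p i).coeff j * (q i).coeff k) * (X ^ (W * j) * (X ^ W + X ^ (W - 1)) ^ k) := by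
      intro i
      have e1 : (p i).comp (X ^ W) = ∑ j ∈ Finset.range N, C ((p i).coeff j) * (X ^ W) ^ j := by
        rw [Polynomial.comp, Polynomial.eval₂_eq_sum_range' _ (hN i).1]
      have e2 : (q i).comp (X ^ W + X ^ (W - 1)) =
          ∑ k ∈ Finset.range N, C ((q i).coeff k) * (X ^ W + X ^ (W - 1)) ^ k := by
        rw [Polynomial.comp, Polynomial.eval₂_eq_sum_range' _ (hN i).2]
      rw [e1, e2, Finset.sum_mul_sum]
      apply Finset.sum_congr rfl; intro j _
      apply Finset.sum_congr rfl; intro k _
      rw [C_mul, ← pow_mul]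
      ring
    simp only [G]
    rw [Finset.sum_congr rfl (fun i _ => this i), Finset.sum_comm]
    apply Finset.sum_congr rfl; intro j _
    rw [Finset.sum_comm]
    apply Finset.sum_congr rfl; intro k _
    rw [← Finset.sum_mul, hc]
    simp only
    rw [map_sum]
  have hcoef : G.coeff (W * D - i0) =
      ∑ j ∈ Finset.range N, ∑ k ∈ Finset.range N,
        if j + k = D then c j k * ((k.choose i0 : ℕ) : ℂ) else 0 := by
    rw [hGexp]
    simp only [Polynomial.finsetSum_coeff, Polynomial.coeff_C_mul]
    apply Finset.sum_congr rfl; intro j _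
    apply Finset.sum_congr rfl; intro k _
    rw [coeff_term W j k _ hW]
    obtain ⟨w, rfl⟩ : ∃ w, W = w + 1 := ⟨W - 1, by omega⟩
    simp only [Nat.add_sub_cancel]
    rcases lt_trichotomy (j + k) D with hlt | heq | hgt
    · rw [if_neg (by omega : ¬ j + k = D)]
      obtain ⟨s, hs⟩ : ∃ s, D = j + k + 1 + s := ⟨D - (j + k + 1), by omega⟩
      have e : (w + 1) * D = (w + 1) * j + w * k + k + (w + 1) + (w + 1) * s := by
        rw [hs]; ring
      rw [if_pos (by omega)]
      rw [Nat.choose_eq_zero_of_lt (by omega)]
      simp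
    · rw [if_pos heq]
      have e : (w + 1) * D = (w + 1) * j + w * k + k := by
        rw [← heq]; ring
      by_cases hki : i0 ≤ k
      · rw [if_pos (by omega)]
        have : (w + 1) * D - i0 - ((w + 1) * j + w * k) = k - i0 := by omega
        rw [this, Nat.choose_symm hki]
      · rw [Nat.choose_eq_zero_of_lt (by omega : k < i0)]
        rw [if_neg (by omega)]; simp
    · rw [hDmax j k hgt]; simp
  rw [hG0, Polynomial.coeff_zero] at hcoef
  -- reorganise the double sum
  apply hi0ne
  rw [htaylor, hcoef]
  have hrow : ∀ j ∈ Finset.range N, (∑ k ∈ Finset.range N,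
        if j + k = D then c j k * ((k.choose i0 : ℕ) : ℂ) else 0) =
        if j ≤ D then c j (D - j) * (((D - j).choose i0 : ℕ) : ℂ) else 0 := by
    intro j _
    by_cases hjD : j ≤ D
    · rw [if_pos hjD]
      by_cases hk : D - j < N
      · rw [Finset.sum_eq_single (D - j)]
        · rw [if_pos (by omega)]
        · intro k _ hne
          rw [if_neg (by omega)]
        · intro hh
          exact absurd (Finset.mem_range.mpr hk) hh
      · rw [hcN j (D - j) (Or.inr (not_lt.mp hk)), zero_mul]
        apply Finset.sum_eq_zero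
        intro k hk'
        rw [Finset.mem_range] at hk'
        rw [if_neg (by omega)]
    · rw [if_neg hjD]
      apply Finset.sum_eq_zero
      intro k _
      rw [if_neg (by omega)]
  rw [Finset.sum_congr rfl hrow]
  have hset : (∑ j ∈ Finset.range N, if j ≤ D then c j (D - j) * (((D - j).choose i0 : ℕ) : ℂ) else 0)
      = ∑ j ∈ Finset.range (max N (D + 1)),
          if j ≤ D then c j (D - j) * (((D - j).choose i0 : ℕ) : ℂ) else 0 := by
    apply Finset.sum_subset
    · intro x hx
      rw [Finset.mem_range] at hx ⊢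
      exact lt_of_lt_of_le hx (le_max_left _ _)
    · intro x _ hx
      rw [Finset.mem_range, not_lt] at hx
      rw [hcN x (D - x) (Or.inl hx)]
      simp
  have hset2 : (∑ j ∈ Finset.range (D + 1), c j (D - j) * (((D - j).choose i0 : ℕ) : ℂ))
      = ∑ j ∈ Finset.range (max N (D + 1)),
          if j ≤ D then c j (D - j) * (((D - j).choose i0 : ℕ) : ℂ) else 0 := by
    rw [← Finset.sum_filter]
    apply Finset.sum_congr
    · ext x
      simp only [Finset.mem_range, Finset.mem_filter]
      constructor
      · intro hx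
        exact ⟨lt_of_lt_of_le hx (le_max_right _ _), by omega⟩
      · rintro ⟨_, hx⟩
        omega
    · intro x _; rfl
  rw [hset, ← hset2]

end Pool.Agent.Helper22.VT
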