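import Mathlib
import Pool.Agent.Helper22.VT.W3a
import Pool.Agent.Helper62.VT.RoabpDef

namespace Pool.Agent.Helper22.VT

open Polynomial Pool.Agent.Helper62.VT

/-- Product of the first `n` terms. -/
def prodN {M : Type*} [Monoid M] (f : ℕ → M) : ℕ → M
  | 0 => 1
  | n + 1 => prodN f n * f n

lemma prodN_congr {M : Type*} [Monoid M] {f g : ℕ → M} : ∀ {n : ℕ}, (∀ l < n, f l = g l) →
    prodN f n = prodN g n
  | 0, _ => rfl
  | n + 1, h => by
    simp only [prodN]
    rw [prodN_congr (fun l hl => h l (Nat.lt_succ_of_lt hl)), h n (Nat.lt_succ_self n)]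

lemma prodN_pair {M : Type*} [Monoid M] (f : ℕ → M) : ∀ n : ℕ,
    prodN f (2 * n) = prodN (fun m => f (2 * m) * f (2 * m + 1)) n
  | 0 => rfl
  | n + 1 => by
    have : 2 * (n + 1) = 2 * n + 1 + 1 := by ring
    rw [this]
    simp only [prodN]
    rw [prodN_pair f n, mul_assoc]

lemma prodN_eq_ofFn {M : Type*} [Monoid M] {n : ℕ} (f : Fin n → M) (g : ℕ → M)
    (h : ∀ l : Fin n, g l = f l) : (List.ofFn f).prod = prodN g n := by
  induction n with
  | zero => simp [prodN]
  | succ n ih =>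
    rw [List.ofFn_succ', List.prod_concat]
    simp only [prodN]
    rw [ih (fun l => f l.castSucc) (fun l => h l.castSucc), ← h (Fin.last n)]
    rfl

lemma prodN_extend {M : Type*} [Monoid M] (g : ℕ → M) (n : ℕ) : ∀ k : ℕ, (∀ l, n ≤ l → g l = 1) →
    prodN g (n + k) = prodN g n
  | 0, _ => rfl
  | k + 1, h => by
    rw [← add_assoc]
    simp only [prodN]
    rw [prodN_extend g n k h, h (n + k) (Nat.le_add_right n k), mul_one]

/-- Replacing the factors of a matrix product one after the other. -/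
lemma replace {κ : ℕ} (X Y : ℕ → Set (Matrix (Fin κ) (Fin κ) ℂ))
    (H : ∀ m, ∀ L R : Fin κ → ℂ, ∀ M ∈ X m, L ⬝ᵥ M.mulVec R ≠ 0 → ∃ M' ∈ Y m, L ⬝ᵥ M'.mulVec R ≠ 0) :
    ∀ (n : ℕ) (u v : Fin κ → ℂ) (M : ℕ → Matrix (Fin κ) (Fin κ) ℂ), (∀ m, M m ∈ X m) →
      u ⬝ᵥ (prodN M n).mulVec v ≠ 0 →
      ∃ M' : ℕ → Matrix (Fin κ) (Fin κ) ℂ, (∀ m < n, M' m ∈ Y m) ∧
        u ⬝ᵥ (prodN M' n).mulVec v ≠ 0
  | 0, u, v, M, _, h => ⟨M, fun m hm => absurd hm (Nat.not_lt_zero m), h⟩
  | n + 1, u, v, M, hM, h => by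
    simp only [prodN] at h
    rw [← Matrix.mulVec_mulVec] at h
    -- replace the last factor
    have h1 : (Matrix.vecMul u (prodN M n)) ⬝ᵥ (M n).mulVec v ≠ 0 := by
      rw [← Matrix.dotProduct_mulVec]; exact h
    obtain ⟨M', hM', hne⟩ := H n _ _ _ (hM n) h1
    rw [← Matrix.dotProduct_mulVec] at hne
    obtain ⟨M'', hM'', hne'⟩ := replace X Y H n u _ M hM hne
    refine ⟨fun m => if m < n then M'' m else M', fun m hm => ?_, ?_⟩
    · by_cases hmn : m < n
      · simp only [hmn, if_true]; exact hM'' m hmn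
      · have : m = n := by omega
        subst this
        simp only [lt_irrefl, if_false]; exact hM'
    · simp only [prodN, lt_irrefl, if_false]
      rw [← Matrix.mulVec_mulVec,
        prodN_congr (f := fun m => if m < n then M'' m else M') (g := M'')
          (fun l hl => by simp only [hl, if_true])]
      exact hne'

/-- The evaluation of a polynomial matrix. -/
noncomputable def ev {κ : ℕ} (A : Matrix (Fin κ) (Fin κ) ℂ[X]) (x : ℂ) :
    Matrix (Fin κ) (Fin κ) ℂ := A.map fun p => p.eval x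

lemma ev_mul {κ : ℕ} (A B : Matrix (Fin κ) (Fin κ) ℂ[X]) (x : ℂ) :
    ev (A * B) x = ev A x * ev B x := by
  ext i j
  simp [ev, Matrix.mul_apply, Polynomial.eval_finsetSum]

lemma ev_comp {κ : ℕ} (A : Matrix (Fin κ) (Fin κ) ℂ[X]) (r : ℂ[X]) (x : ℂ) :
    ev (A.map fun p => p.comp r) x = ev A (r.eval x) := by
  ext i j
  simp [ev, Polynomial.eval_comp]

theorem hits_aux (W : ℕ) (hW : 1 ≤ W) : ∀ (h : ℕ) (A : ℕ → Matrix (Fin W) (Fin W) ℂ[X])
    (u v : Fin W → ℂ) (a : ℕ → ℂ),
    u ⬝ᵥ (prodN (fun l => ev (A l) (a l)) (2 ^ h)).mulVec v ≠ 0 →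
    ∃ t : ℂ, u ⬝ᵥ (prodN (fun l => ev (A l) ((curve W h l).eval t)) (2 ^ h)).mulVec v ≠ 0
  | 0, A, u, v, a, ha => by
    refine ⟨a 0, ?_⟩
    simp only [pow_zero, prodN, curve, Polynomial.eval_X] at ha ⊢
    exact ha
  | h + 1, A, u, v, a, ha => by
    rw [pow_succ', prodN_pair] at ha
    set B : ℕ → Matrix (Fin W) (Fin W) ℂ[X] := fun m =>
      ((A (2 * m)).map fun p => p.comp (X ^ W)) *
        ((A (2 * m + 1)).map fun p => p.comp (X ^ W + X ^ (W - 1))) with hB
    have hev : ∀ m τ, ev (B m) τ = ev (A (2 * m)) (τ ^ W) * ev (A (2 * m + 1)) (τ ^ W + τ ^ (W - 1)) := by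
      intro m τ
      rw [hB]
      simp only
      rw [ev_mul, ev_comp, ev_comp]
      simp
    obtain ⟨M', hM', hne⟩ := replace
      (fun m => {M | ∃ x y : ℂ, M = ev (A (2 * m)) x * ev (A (2 * m + 1)) y})
      (fun m => {M | ∃ τ : ℂ, M = ev (B m) τ})
      (by
        rintro m L R M ⟨x, y, rfl⟩ hne
        set p : Fin W → ℂ[X] := fun s => ∑ i, C (L i) * A (2 * m) i s with hp
        set q : Fin W → ℂ[X] := fun s => ∑ j, A (2 * m + 1) s j * C (R j) with hq
        have key : ∀ x y : ℂ, L ⬝ᵥ (ev (A (2 * m)) x * ev (A (2 * m + 1)) y).mulVec R =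
            ∑ s, (p s).eval x * (q s).eval y := by
          intro x y
          rw [← Matrix.mulVec_mulVec, Matrix.dotProduct_mulVec]
          simp only [dotProduct, Matrix.vecMul, Matrix.mulVec, ev, Matrix.map_apply, hp, hq,
            Polynomial.eval_finsetSum, Polynomial.eval_mul, Polynomial.eval_C]
        rw [key] at hne
        obtain ⟨τ, hτ⟩ := bivariate W hW p q x y hne
        refine ⟨ev (B m) τ, ⟨τ, rfl⟩, ?_⟩
        rw [hev, key]
        exact hτ)
      (2 ^ h) u v (fun m => ev (A (2 * m)) (a (2 * m)) * ev (A (2 * m + 1)) (a (2 * m + 1)))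
      (fun m => ⟨_, _, rfl⟩) ha
    choose! τ hτ using hM'
    have hne2 : u ⬝ᵥ (prodN (fun m => ev (B m) (τ m)) (2 ^ h)).mulVec v ≠ 0 := by
      rw [prodN_congr (f := fun m => ev (B m) (τ m)) (g := M') (fun l hl => (hτ l hl).symm)]
      exact hne
    obtain ⟨t, ht⟩ := hits_aux W hW h B u v τ hne2
    refine ⟨t, ?_⟩
    rw [pow_succ', prodN_pair]
    convert ht using 3
    apply prodN_congr
    intro m _
    rw [hev]
    have e1 : (2 * m) % 2 = 0 := by omega
    have e2 : (2 * m) / 2 = m := by omega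
    have e3 : ¬ (2 * m + 1) % 2 = 0 := by omega
    have e4 : (2 * m + 1) / 2 = m := by omega
    simp only [curve, e1, e2, e3, e4, if_true, if_false, Polynomial.eval_add, Polynomial.eval_pow]

lemma eval_mprod {n κ : ℕ} (A : Fin n → Matrix (Fin κ) (Fin κ) ℂ[X]) (a : Fin n → ℂ) :
    (mprod A).map (MvPolynomial.eval a) = (List.ofFn fun l => ev (A l) (a l)).prod := by
  have h1 : (mprod A).map (MvPolynomial.eval a) =
      (MvPolynomial.eval a).mapMatrix (mprod A) := rfl
  rw [h1, mprod, map_list_prod, List.map_ofFn]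
  congr 2
  funext l
  ext i j
  simp only [Function.comp_apply, RingHom.mapMatrix_apply, Matrix.map_apply, ev]
  have hc : (MvPolynomial.eval a).comp (algebraMap ℂ (MvPolynomial (Fin n) ℂ)) = RingHom.id ℂ :=
    RingHom.ext fun x => by simp [MvPolynomial.algebraMap_eq]
  rw [Polynomial.aeval_def, Polynomial.hom_eval₂, hc, MvPolynomial.eval_X, Polynomial.eval₂_id]

theorem curve_hits (W h n : ℕ) (hW : 1 ≤ W) (hn : n ≤ 2 ^ h) (f : MvPolynomial (Fin n) ℂ)
    (hf : IsRO W f) (h0 : f ≠ 0) :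
    MvPolynomial.aeval (fun l : Fin n => curve W h l) f ≠ 0 := by
  obtain ⟨A, u, v, rfl⟩ := hf
  set f : MvPolynomial (Fin n) ℂ := ∑ i, ∑ j, MvPolynomial.C (u i) * mprod A i j * MvPolynomial.C (v j)
    with hfdef
  -- evaluation formula
  have heval : ∀ a : Fin n → ℂ, MvPolynomial.eval a f =
      u ⬝ᵥ ((List.ofFn fun l => ev (A l) (a l)).prod).mulVec v := by
    intro a
    rw [← eval_mprod, hfdef]
    simp only [map_sum, map_mul, MvPolynomial.eval_C, dotProduct, Matrix.mulVec, Matrix.map_apply,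
      Finset.mul_sum, mul_assoc]
  obtain ⟨a, ha⟩ : ∃ a, MvPolynomial.eval a f ≠ 0 := by
    by_contra hcon
    push Not at hcon
    exact h0 (MvPolynomial.funext fun a => by rw [hcon a, map_zero])
  rw [heval] at ha
  -- pad
  let A' : ℕ → Matrix (Fin W) (Fin W) ℂ[X] := fun l => if hl : l < n then A ⟨l, hl⟩ else 1
  let a' : ℕ → ℂ := fun l => if hl : l < n then a ⟨l, hl⟩ else 0
  have hev1 : ∀ x : ℂ, ev (1 : Matrix (Fin W) (Fin W) ℂ[X]) x = 1 := by
    intro x
    ext i j
    by_cases hij : i = j <;> simp [ev, Matrix.one_apply, hij]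
  have hpad : ∀ b : ℕ → ℂ, prodN (fun l => ev (A' l) (b l)) (2 ^ h) =
      (List.ofFn fun l : Fin n => ev (A l) (b l)).prod := by
    intro b
    rw [prodN_eq_ofFn (fun l : Fin n => ev (A l) (b l)) (fun l => ev (A' l) (b l))]
    · obtain ⟨k, hk⟩ : ∃ k, 2 ^ h = n + k := ⟨2 ^ h - n, by omega⟩
      rw [hk]
      apply prodN_extend
      intro l hl
      simp only [A', dif_neg (not_lt.mpr hl)]
      exact hev1 _
    · intro l
      simp only [A', l.2, dif_pos]
  have ha2 : u ⬝ᵥ (prodN (fun l => ev (A' l) (a' l)) (2 ^ h)).mulVec v ≠ 0 := by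
    rw [hpad]
    have : (fun l : Fin n => ev (A l) (a' l)) = fun l => ev (A l) (a l) := by
      funext l
      simp only [a', l.2, dif_pos]
    rw [this]; exact ha
  obtain ⟨t, ht⟩ := hits_aux W hW h A' u v a' ha2
  rw [hpad, ← heval (fun l : Fin n => (curve W h l).eval t)] at ht
  intro hz
  apply ht
  have : MvPolynomial.eval (fun l : Fin n => (curve W h l).eval t) f =
      Polynomial.eval t (MvPolynomial.aeval (fun l : Fin n => curve W h l) f) := by
    have h2 : (Polynomial.aeval t).comp (MvPolynomial.aeval (fun l : Fin n => curve W h l)) =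
        (MvPolynomial.aeval (fun l : Fin n => (curve W h l).eval t) :
          MvPolynomial (Fin n) ℂ →ₐ[ℂ] ℂ) := by
      apply MvPolynomial.algHom_ext
      intro i
      simp [Polynomial.aeval_def, Polynomial.eval₂_eq_eval_map]
    have h3 := congrArg (fun φ => φ f) h2
    simp only [AlgHom.comp_apply] at h3
    rw [← MvPolynomial.coe_aeval_eq_eval]
    rw [RingHom.coe_coe, ← h3]
    simp [Polynomial.aeval_def]
  rw [this, hz, Polynomial.eval_zero]

theorem curve_natDegree (W : ℕ) : ∀ (h l : ℕ) (_ : 1 ≤ W), (curve W h l).natDegree ≤ W ^ h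
  | 0, l, _ => by simp [curve]
  | h + 1, l, hW => by
    have ih := curve_natDegree W h (l / 2) hW
    have h1 : (curve W h (l / 2) ^ W).natDegree ≤ W ^ (h + 1) := by
      calc (curve W h (l / 2) ^ W).natDegree ≤ W * (curve W h (l / 2)).natDegree :=
            Polynomial.natDegree_pow_le
        _ ≤ W * W ^ h := Nat.mul_le_mul_left _ ih
        _ = W ^ (h + 1) := (pow_succ' W h).symm
    have h2 : (curve W h (l / 2) ^ (W - 1)).natDegree ≤ W ^ (h + 1) := by
      calc (curve W h (l / 2) ^ (W - 1)).natDegree ≤ (W - 1) * (curve W h (l / 2)).natDegree :=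
            Polynomial.natDegree_pow_le
        _ ≤ W * W ^ h := Nat.mul_le_mul (Nat.sub_le _ _) ih
        _ = W ^ (h + 1) := (pow_succ' W h).symm
    simp only [curve]
    split_ifs
    · exact h1
    · exact Polynomial.natDegree_add_le_of_degree_le h1 h2

end Pool.Agent.Helper22.VT
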